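import Pool.Agent.Helper87.RP.Defs

/-!
# MP_4e034d_co, module C6 : the counts

The statements of modules C1 (`idx_sdiff`), C2 (`exists_bal`) and C5 (`avoid_one`, `avoid_two`)
are taken as hypotheses, for one fixed signed complete graph.
-/

namespace Pool.Agent.Helper77.RP

open Finset Pool.Agent.Helper87.RP

set_option linter.unusedSectionVars false

variable {V : Type} [DecidableEq V]

/-- Statement of `idx_sdiff` for `s`. -/
def StSdiff (s : V → V → ℝ) : Prop :=
  ∀ {S t : Finset V} {k : ℕ}, Idx s S (k + 1) → ∀ {e : V → ℝ}, Bal s e t → Idx s (S \ t) k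

/-- Statement of `exists_bal` for `s`. -/
def StBal (s : V → V → ℝ) : Prop :=
  ∀ {S : Finset V} {k : ℕ}, Idx s S k →
    ∃ (t : Finset V) (e : V → ℝ), t ⊆ S ∧ Bal s e t ∧ k + 1 ≤ t.card

/-- Statement of `avoid_one` for `s`. -/
def StAvoidOne (s : V → V → ℝ) : Prop :=
  ∀ {S Q : Finset V} {k : ℕ}, Idx s S k → Q ⊆ S → Q.card ≤ k + 1 → k + 1 ≤ S.card →
    S.card < k + 2 ^ k → ∃ (t : Finset V) (e : V → ℝ), t ⊆ S \ Q ∧ Bal s e t ∧ k + 1 ≤ t.card

/-- Statement of `avoid_two` for `s`. -/
def StAvoidTwo (s : V → V → ℝ) : Prop :=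
  ∀ {S Q : Finset V} {k : ℕ}, 1 ≤ k → Idx s S k → Q ⊆ S → Q.card ≤ k + 2 → k + 2 ≤ S.card →
    (∀ a < k, S.card < k + 2 ^ a + 2 ^ (k - 1 - a)) →
      ∃ (t : Finset V) (e : V → ℝ), t ⊆ S \ Q ∧ Bal s e t ∧ k + 1 ≤ t.card

theorem card_pos_of_idx {s : V → V → ℝ} {S : Finset V} {k : ℕ} (h : Idx s S k) :
    1 ≤ S.card := by
  obtain ⟨t, e, w, ht, hne, _⟩ := h (fun _ _ => 0)
  exact Finset.card_pos.2 (hne.mono ht)

theorem choose_two_succ (m : ℕ) : (m + 1).choose 2 = m.choose 2 + m := by
  rw [Nat.choose_succ_succ' m 1, Nat.choose_one_right]; ring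

theorem card_sdiff_add {S t : Finset V} (h : t ⊆ S) : (S \ t).card + t.card = S.card :=
  Finset.card_sdiff_add_card_eq_card h

/-- `k + 2 ^ k` is large. -/
theorem pow_big (k : ℕ) (hk : 1 ≤ k) : (k + 2).choose 2 + (k - 1) / 2 ≤ k + 2 ^ k := by
  have h : ∀ m : ℕ, (m + 3).choose 2 + m / 2 ≤ m + 1 + 2 ^ (m + 1) := by
    intro m
    induction m with
    | zero => decide
    | succ m ih =>
      rcases Nat.lt_or_ge m 2 with hm | hm
      · interval_cases m <;> decide
      · have h1 := choose_two_succ (m + 3)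
        have h2 : m + 4 ≤ 2 ^ (m + 1) := by
          clear ih h1
          induction m, hm using Nat.le_induction with
          | base => decide
          | succ n hn ih => rw [pow_succ]; omega
        have h3 : 2 ^ (m + 1 + 1) = 2 ^ (m + 1) + 2 ^ (m + 1) := by rw [pow_succ]; ring
        have h4 : m + 1 + 3 = m + 3 + 1 := by ring
        rw [h4, h1, h3]
        omega
  obtain ⟨k, rfl⟩ : ∃ m, k = m + 1 := ⟨k - 1, by omega⟩
  have := h k
  rw [show k + 1 + 2 = k + 3 by ring, show k + 1 - 1 = k by omega]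
  exact this

/-- A balanced subset of maximal cardinality. -/
theorem exists_max {s : V → V → ℝ} (hbal : StBal s) {S : Finset V} {k : ℕ} (h : Idx s S k) :
    ∃ (t : Finset V) (e : V → ℝ), t ⊆ S ∧ Bal s e t ∧ k + 1 ≤ t.card ∧
      ∀ (t' : Finset V) (e' : V → ℝ), t' ⊆ S → Bal s e' t' → t'.card ≤ t.card := by
  classical
  obtain ⟨t₀, e₀, ht₀, hb₀, hc₀⟩ := hbal h
  obtain ⟨t, ht, hmax⟩ := Finset.exists_max_image
    (S.powerset.filter fun t => ∃ e : V → ℝ, Bal s e t) Finset.card
    ⟨t₀, by simp only [Finset.mem_filter, Finset.mem_powerset]; exact ⟨ht₀, e₀, hb₀⟩⟩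
  simp only [Finset.mem_filter, Finset.mem_powerset] at ht
  obtain ⟨hts, e, he⟩ := ht
  refine ⟨t, e, hts, he, ?_, ?_⟩
  · exact hc₀.trans (hmax t₀ (by
      simp only [Finset.mem_filter, Finset.mem_powerset]; exact ⟨ht₀, e₀, hb₀⟩))
  · intro t' e' ht' hb'
    exact hmax t' (by simp only [Finset.mem_filter, Finset.mem_powerset]; exact ⟨ht', e', hb'⟩)

/-- The first count, for all `k`. -/
theorem card_ge_all {s : V → V → ℝ} (hsd : StSdiff s) (hbal : StBal s) (hav : StAvoidOne s)
    (k : ℕ) : ∀ {S : Finset V}, Idx s S k → (k + 2).choose 2 + (k - 1) / 2 ≤ S.card := by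
  induction k using Nat.strong_induction_on with
  | _ k ih =>
    intro S h
    rcases k with _ | k
    · have := card_pos_of_idx h
      simpa using this
    · obtain ⟨t, e, hts, hb, hc, hmax⟩ := exists_max hbal h
      have hI := hsd h hb
      have hcS := card_sdiff_add hts
      have hch := choose_two_succ (k + 2)
      have e1 : k + 1 + 2 = k + 2 + 1 := by ring
      have e2 : k + 1 - 1 = k := by omega
      by_cases h2 : k + 3 ≤ t.card
      · have := ih k (by omega) hI
        rw [e1, e2, hch]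
        omega
      · by_cases hS : S.card < (k + 1) + 2 ^ (k + 1)
        · obtain ⟨t', e', ht', hb', hc'⟩ := hav h hts (by omega) (by omega) hS
          have hcS' := card_sdiff_add ht'
          rcases k with _ | k
          · rw [e1, e2]
            have : (0 + 2 + 1).choose 2 = 3 := by decide
            omega
          · have hI' := hsd hI hb'
            have := ih k (by omega) hI'
            have hch' := choose_two_succ (k + 2)
            have e3 : k + 1 + 2 = k + 2 + 1 := by ring
            rw [e1, e2, hch, e3, hch']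
            omega
        · have := pow_big (k + 1) (by omega)
          omega

/-- module C6, first count -/
theorem card_ge {s : V → V → ℝ} (hsd : StSdiff s) (hbal : StBal s) (hav : StAvoidOne s)
    {S : Finset V} {k : ℕ} (_hk : 1 ≤ k) (h : Idx s S k) :
    (k + 2).choose 2 + (k - 1) / 2 ≤ S.card :=
  card_ge_all hsd hbal hav k h

/-- `2 ^ (k + 1)` is larger than the square of the number of pairs. -/
theorem sq_lt (k : ℕ) (hk : 13 ≤ k) : ((k + 2).choose 2 - 7) ^ 2 < 2 ^ (k + 1) := by
  have key : ∀ k : ℕ, 13 ≤ k → ((k + 2).choose 2 - 7) ^ 2 < 2 ^ (k + 1) ∧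
      7 ≤ (k + 2).choose 2 ∧ 3 * (k + 2) ≤ (k + 2).choose 2 - 7 := by
    intro k hk
    induction k, hk using Nat.le_induction with
    | base => decide
    | succ n hn ih =>
      obtain ⟨h1, h2, h3⟩ := ih
      have hch := choose_two_succ (n + 2)
      have e1 : n + 1 + 2 = n + 2 + 1 := by ring
      rw [e1, hch]
      refine ⟨?_, by omega, by omega⟩
      have e2 : (n + 2).choose 2 + (n + 2) - 7 = ((n + 2).choose 2 - 7) + (n + 2) := by omega
      rw [e2, pow_succ 2 (n + 1)]
      generalize (n + 2).choose 2 - 7 = x at h1 h3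
      have : (x + (n + 2)) ^ 2 ≤ x ^ 2 * 2 := by nlinarith
      calc (x + (n + 2)) ^ 2 ≤ x ^ 2 * 2 := this
        _ < 2 ^ (n + 1) * 2 := by omega
  exact (key k hk).1

theorem hn_two (k : ℕ) (hk : 13 ≤ k) (a : ℕ) (ha : a < k) :
    (k + 2).choose 2 + (k - 7) < k + 2 ^ a + 2 ^ (k - 1 - a) := by
  have h1 := sq_lt k hk
  have h2 : 2 ^ (k + 1) ≤ (2 ^ a + 2 ^ (k - 1 - a)) ^ 2 := by
    have e : (2 : ℕ) ^ (k + 1) = 4 * (2 ^ a * 2 ^ (k - 1 - a)) := by
      rw [← pow_add, show a + (k - 1 - a) = k - 1 by omega]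
      obtain ⟨m, rfl⟩ : ∃ m, k = m + 1 := ⟨k - 1, by omega⟩
      rw [show m + 1 - 1 = m by omega]
      ring
    rw [e]
    generalize (2 : ℕ) ^ a = x
    generalize (2 : ℕ) ^ (k - 1 - a) = y
    zify
    nlinarith [sq_nonneg ((x : ℤ) - y)]
  have h3 : (k + 2).choose 2 - 7 < 2 ^ a + 2 ^ (k - 1 - a) := lt_of_pow_lt_pow_left₀ 2 (by positivity) (h1.trans_le h2)
  omega

/-- The second count, joint induction. -/
theorem card_ge_joint {s : V → V → ℝ} (hsd : StSdiff s) (hbal : StBal s) (hav : StAvoidOne s)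
    (hav2 : StAvoidTwo s) (k : ℕ) (hk : 12 ≤ k) : ∀ {S : Finset V}, Idx s S k →
      (k + 2).choose 2 + (k - 7) ≤ S.card ∧
      ∀ (t : Finset V) (e : V → ℝ), t ⊆ S → Bal s e t → k + 2 ≤ t.card →
        (k + 2).choose 2 + (k - 7) + 1 ≤ S.card := by
  induction k, hk using Nat.le_induction with
  | base =>
    intro S h
    refine ⟨?_, ?_⟩
    · have := card_ge_all hsd hbal hav 12 h
      have e : (12 + 2).choose 2 = 91 := by decide
      rw [e] at this ⊢
      omega
    · intro t e hts hb hc
      have hI := hsd h hb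
      have h1 := card_ge_all hsd hbal hav 11 hI
      have e1 : (12 + 2).choose 2 = 91 := by decide
      have e2 : (11 + 2).choose 2 = 78 := by decide
      have hcS := card_sdiff_add hts
      rw [e1]
      rw [e2] at h1
      omega
  | succ k hk ih =>
    intro S h
    obtain ⟨t, e, hts, hb, hc, hmax⟩ := exists_max hbal h
    have hI := hsd h hb
    have hcS := card_sdiff_add hts
    have hch := choose_two_succ (k + 2)
    have e1 : k + 1 + 2 = k + 2 + 1 := by ring
    obtain ⟨ih1, ih2⟩ := ih hI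
    by_cases h3 : k + 4 ≤ t.card
    · have : (k + 1 + 2).choose 2 + (k + 1 - 7) + 1 ≤ S.card := by
        rw [e1, hch]; omega
      exact ⟨by omega, fun _ _ _ _ _ => this⟩
    · have main : S.card ≤ (k + 1 + 2).choose 2 + (k + 1 - 7) →
          t.card + ((k + 2).choose 2 + (k - 7) + 1) ≤ S.card := by
        intro hle
        have hn : ∀ a < k + 1, S.card < (k + 1) + 2 ^ a + 2 ^ (k + 1 - 1 - a) := fun a ha =>
          hle.trans_lt (hn_two (k + 1) (by omega) a ha)
        have hS2 : k + 1 + 2 ≤ S.card := by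
          have hpos : k + 2 ≤ (k + 2).choose 2 := by
            have h5 := choose_two_succ (k + 1)
            have h6 := choose_two_succ k
            have : 0 < k.choose 2 := Nat.choose_pos (by omega)
            rw [show k + 2 = k + 1 + 1 by ring, h5, h6]
            omega
          omega
        obtain ⟨t', e', ht', hb', hc'⟩ := hav2 (by omega) h hts (by omega) hS2 hn
        have := ih2 t' e' ht' hb' (by omega)
        omega
      refine ⟨?_, ?_⟩
      · by_contra hcon
        have h4 := main (by omega)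
        rw [e1, hch] at hcon
        omega
      · intro t₁ e₁ ht₁ hb₁ hc₁
        have h5 := hmax t₁ e₁ ht₁ hb₁
        by_contra hcon
        have h4 := main (by omega)
        rw [e1, hch] at hcon
        omega

/-- module C6, second count -/
theorem card_ge' {s : V → V → ℝ} (hsd : StSdiff s) (hbal : StBal s) (hav : StAvoidOne s)
    (hav2 : StAvoidTwo s) {S : Finset V} {k : ℕ} (hk : 12 ≤ k) (h : Idx s S k) :
    (k + 2).choose 2 + (k - 7) ≤ S.card :=
  (card_ge_joint hsd hbal hav hav2 k hk h).1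

end Pool.Agent.Helper77.RP
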