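import Pool.Agent.Helper87.RP.Defs

/-!
# MP_4e034d_co, module T1 : the double covering of projective space and sign functions
-/

namespace Pool.Agent.Helper77.RP

open Finset Pool.Agent.Helper87.RP
open scoped Topology
open Topology

/-- The antipodal action of the group of order two on the sphere. -/
@[reducible] noncomputable def act (d : ℕ) : MulAction ℤˣ (Sph d) where
  smul g x := if g = 1 then x else -x
  one_smul x := by
    change (if (1 : ℤˣ) = 1 then x else -x) = x
    simp
  mul_smul g h x := by
    change (if g * h = 1 then x else -x) =
      if g = 1 then (if h = 1 then x else -x) else -(if h = 1 then x else -x)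
    rcases Int.units_eq_one_or g with rfl | rfl <;> rcases Int.units_eq_one_or h with rfl | rfl <;>
      simp

theorem quotientCovering (d : ℕ) : letI := act d; IsQuotientCoveringMap (prj d) ℤˣ := by
  let _ := act d
  have smul_def : ∀ (g : ℤˣ) (x : Sph d), g • x = if g = 1 then x else -x := fun _ _ => rfl
  have hq : IsQuotientMap (prj d) := isQuotientMap_quotient_mk'
  exact
  { toIsQuotientMap := hq
    continuous_const_smul := by
      intro g
      simp only [smul_def]
      rcases Int.units_eq_one_or g with rfl | rfl
      · exact (continuous_id : Continuous fun x : Sph d => x).congr (fun x => by simp)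
      · simpa using (continuous_neg : Continuous fun x : Sph d => -x)
    apply_eq_iff_mem_orbit := by
      intro x y
      rw [prj_eq_iff, MulAction.mem_orbit_iff]
      constructor
      · rintro (h | h)
        · exact ⟨1, by rw [smul_def]; simp [h]⟩
        · exact ⟨-1, by rw [smul_def]; simp [h]⟩
      · rintro ⟨g, hg⟩
        rw [smul_def] at hg
        rcases Int.units_eq_one_or g with rfl | rfl
        · left; simpa using hg.symm
        · right; simpa using hg.symm
    disjoint := by
      intro e
      refine ⟨Metric.ball e 1, Metric.ball_mem_nhds e one_pos, ?_⟩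
      rintro g ⟨y, ⟨x, hx, rfl⟩, hy⟩
      rcases Int.units_eq_one_or g with rfl | rfl
      · rfl
      · exfalso
        have e1 : ((-1 : ℤˣ) • x : Sph d) = -x := by rw [smul_def]; simp
        simp only [e1] at hy
        rw [Metric.mem_ball, Subtype.dist_eq, dist_eq_norm] at hx hy
        have he : ‖(e : EuclideanSpace ℝ (Fin (d + 1)))‖ = 1 := by
          simp
        have h2 : (2 : ℝ) • (e : EuclideanSpace ℝ (Fin (d + 1))) =
            -((x : EuclideanSpace ℝ (Fin (d + 1))) - e) - (((-x : Sph d) :
              EuclideanSpace ℝ (Fin (d + 1))) - e) := by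
          rw [coe_neg_sphere]
          module
        have h3 : ‖(2 : ℝ) • (e : EuclideanSpace ℝ (Fin (d + 1)))‖ = 2 := by
          rw [norm_smul, he]; norm_num
        rw [h2] at h3
        have h4 := norm_sub_le (-((x : EuclideanSpace ℝ (Fin (d + 1))) - e))
          (((-x : Sph d) : EuclideanSpace ℝ (Fin (d + 1))) - e)
        rw [norm_neg] at h4
        linarith }

/-- The projection of the sphere onto projective space is a covering map. -/
theorem isCoveringMap_prj (d : ℕ) : IsCoveringMap (prj d) :=
  letI := act d
  (quotientCovering d).isCoveringMap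

theorem prj_neg {d : ℕ} (x : Sph d) : prj d (-x) = prj d x := prj_eq_iff.2 (Or.inr rfl)

/-- module T1: homotopy lifting for the projection of the sphere onto projective space, in the form
that is needed: an odd sign function over a contractible set. -/
theorem exists_sign {d : ℕ} {A : Type} [TopologicalSpace A] (g : A → RPd d) (hg : Continuous g)
    (H : unitInterval × A → A) (hH : Continuous H) (a₀ : A) (h0 : ∀ a, H (0, a) = a)
    (h1 : ∀ a, H (1, a) = a₀) :
    ∃ η : {p : A × Sph d // g p.1 = prj d p.2} → ℝ, Continuous η ∧ (∀ p, η p = 1 ∨ η p = -1) ∧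
      ∀ p q : {p : A × Sph d // g p.1 = prj d p.2}, p.1.1 = q.1.1 → p.1.2 = -q.1.2 →
        η p = -η q := by
  have cov := isCoveringMap_prj d
  let P := {p : A × Sph d // g p.1 = prj d p.2}
  let K : C(unitInterval × P, RPd d) :=
    ⟨fun z => g (H (z.1, z.2.1.1)), by
      refine hg.comp (hH.comp ?_)
      exact continuous_fst.prodMk (continuous_fst.comp (continuous_subtype_val.comp
        continuous_snd))⟩
  let f : C(P, Sph d) := ⟨fun p => p.1.2, continuous_snd.comp continuous_subtype_val⟩
  have hK : ∀ z : unitInterval × P, K z = g (H (z.1, z.2.1.1)) := fun _ => rfl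
  have hK0 : ∀ p : P, K (0, p) = prj d (f p) := by
    intro p
    rw [hK]
    simp only [h0]
    exact p.2
  let L : C(unitInterval × P, Sph d) := cov.liftHomotopy K f hK0
  have hL : ∀ z, prj d (L z) = K z := fun z => congrFun (cov.liftHomotopy_lifts K f hK0) z
  have hL0 : ∀ p : P, L (0, p) = p.1.2 := fun p => cov.liftHomotopy_zero K f hK0 p
  obtain ⟨y, hy⟩ := prj_surjective d (g a₀)
  have hy1 : ‖(y : EuclideanSpace ℝ (Fin (d + 1)))‖ = 1 := by simp
  refine ⟨fun p => inner ℝ (L (1, p) : EuclideanSpace ℝ (Fin (d + 1))) y, ?_, ?_, ?_⟩
  · refine Continuous.inner ?_ continuous_const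
    exact continuous_subtype_val.comp (L.continuous.comp (Continuous.prodMk_right 1))
  · intro p
    have h2 : prj d (L (1, p)) = prj d y := by
      rw [hL, hK, hy]
      simp only [h1]
    rcases prj_eq_iff.1 h2 with h | h
    · left
      simp only [h]
      rw [real_inner_self_eq_norm_sq, hy1]; norm_num
    · right
      simp only [h]
      rw [coe_neg_sphere, inner_neg_left, real_inner_self_eq_norm_sq, hy1]; norm_num
  · intro p q hpq hpq2
    have key : (fun t : unitInterval => L (t, p)) = fun t => -L (t, q) := by
      refine cov.eq_of_comp_eq (L.continuous.comp (Continuous.prodMk_left p))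
        (continuous_neg.comp (L.continuous.comp (Continuous.prodMk_left q))) ?_ 0 ?_
      · funext t
        simp only [Function.comp]
        rw [prj_neg, hL, hL, hK, hK]
        simp only [hpq]
      · simp only [hL0]
        exact hpq2
    have := congrFun key 1
    simp only at this ⊢
    rw [this, coe_neg_sphere, inner_neg_left]

end Pool.Agent.Helper77.RP
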